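import Pool.Agent.R908.SS.FrobElem

/-!
# Semisimplicity of Frobenius and the cohomology of smooth affine cubic hypersurfaces

`E` is an algebraically closed field of characteristic zero (an algebraic closure of `ℚ_ℓ`). For every
finite field `k`, `(T k).H X f n` is the `ℓ`-adic cohomology with compact supports `H^n_c(X)` of the
scheme `X` over `k`, with the Frobenius of `k`; and `S k` is the class of the smooth projective schemes
over `k`. Let `p` be a prime number.

A finite family `g = (g_1, …, g_m)` of polynomials over `𝔽_p` in the variables `x_1, …, x_N` is
*elementary* if each `g_k` is of one of the forms `x_a x_b - x_c`, `x_a + x_b - x_c`, `x_a - 1`. The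
hypersurface `J_g : y_1 g_1(x) + … + y_m g_m(x) = 1` in the affine space of dimension `N + m` over
`𝔽_p` is smooth of degree at most three (`IsElementary.isSmoothCubic`).

**Theorem.** The following are equivalent:

1. for all finite fields `k` of characteristic `p` and all smooth projective `X` over `k`, Frobenius
   acts semisimply on `H^n(X)`, for all `n`;
2. for all finite fields `k` of characteristic `p`, all `d` and all smooth hypersurfaces `J` of degree
   at most three in the affine space of dimension `d + 1` over `k`, Frobenius has no Jordan block of
   size at least two with an eigenvalue of weight `d - 1` on the middle cohomology `H^d_c(J)`;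
3. for all elementary families `g` over `𝔽_p` and all `n`, Frobenius has no Jordan block of size at
   least two with an eigenvalue of weight `n - 1` on `H^n_c(J_g)`.

So all smooth projective varieties over all finite fields of characteristic `p` can be replaced by the
members of an explicit countable family of smooth affine cubic hypersurfaces over the *prime field*,
given by combinatorial data only. (Under these conditions the action on `H^n_c(X)` is semisimple for all
separated schemes `X` of finite type; see `frob_tfae`.)

The properties of `ℓ`-adic cohomology which are used are listed in `FrobTheory`: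

* `cohomology`: `H^n_c(Spec k) = 0` for `n ≠ 0`, `H^n_c(X) = 0` unless `0 ≤ n ≤ 2 dim X`, the exact
  sequence `H^n_c(X) → H^n_c(Z) → H^(n+1)_c(X ∖ Z)`, and `H^(n+2r)_c(E') = H^n_c(X)(-r)` for affine
  bundles `E' → X` of rank `r`;
* `artin`, `lefschetz`: for a smooth affine cubic hypersurface `J` of dimension `d`, `H^n_c(J) = 0`
  for `n < d`, and `H^n_c(J)` is for `n > d ≥ 1` a quotient of `H^(n-2)_c(J')(-1)`, where `J'` is a
  general hyperplane section of `J`, defined over a finite extension of `k`;
* `pure`, `weights` (Deligne): `H^n(X)` is pure of weight `n` if `X` is smooth projective, and the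
  graded pieces of the weight filtration of `H^n_c(X)` are subquotients of `H^w(Y)` with smooth
  projective `Y` (with de Jong's alterations);
* `torsors` (Jouanolou): every smooth projective `X` has an affine bundle `E' → X` with `E'` affine;
* `restriction`: for `X` over an extension `L` of `k`, the cohomology of `X` over `L` is contained in
  the cohomology of `X` as a scheme over `k`, and the Frobenius of `L` is a power of that of `k`.

The proof of `3 ⇒ 1`. The affine scheme `E'` of Jouanolou's trick has a presentation by elementary
relations, at least one of them (write its equations over `𝔽_p` as straight-line programs); so it is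
closed in an affine space `𝔸^N`, defined there by an elementary family `g`; let `U` be its complement.
Then `H^n(X)(-r) = H^(n+2r)_c(E')` is contained in `H^(n+2r+1)_c(U)`, and `J_g` is an affine bundle over
`U`. So `H^n(X)` is contained in a Tate twist of `H^i_c(J_g)`, for some `i`, and its eigenvalues go to
eigenvalues of weight `i - 1`. For `2` one takes hyperplane sections; one has to know that Frobenius is
semisimple if a power of it is.
-/

set_option autoImplicit false

open AlgebraicGeometry Pool.Agent.R904.CU Pool.Agent.R908.SS

namespace Pool.Agent.Results.MP_93fb11_ag.AffineCubics

/-- The following are equivalent: (1) Frobenius is semisimple on the cohomology of all smooth projective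
schemes over all finite fields `k` of characteristic `p`; (2) for the smooth affine hypersurfaces `J` of
degree at most three over these `k`, Frobenius has no Jordan blocks of weight `d - 1` on `H^d_c(J)`,
`d = dim J`; (3) for the hypersurfaces `J_g : ∑ yₖ gₖ(x) = 1` over `𝔽_p` of all elementary families `g`,
it has no Jordan blocks of weight `n - 1` on `H^n_c(J_g)`, for all `n`. -/
theorem result (E : Type) [Field E] [CharZero E] [IsAlgClosed E] (T : FrobOverFields E)
    (S : ∀ (k : Type) [Field k], SchProp k) (hT : FrobTheory T S) (p : ℕ) [Fact p.Prime] :
    [∀ (k : Type) [Field k] [Finite k] [Algebra (ZMod p) k] (X : Scheme.{0})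
       (f : X ⟶ Spec (.of k)), S k X f → ∀ n : ℤ, ((T k).H X f n).Semisimple,
     ∀ (k : Type) [Field k] [Finite k] [Algebra (ZMod p) k] (σ : Type) [Fintype σ] (d : ℕ),
       Fintype.card σ = d + 1 → ∀ F : MvPolynomial σ k, IsSmoothCubic F →
       ((T k).ofHyp F d).NoBlocks (Nat.card k) (d - 1),
     ∀ (σ κ : Type) [Fintype σ] [Fintype κ] (g : κ → MvPolynomial σ (ZMod p)),
       IsElementary g → ∀ n : ℤ, ((T (ZMod p)).ofHyp (bigPoly g) n).NoBlocks p (n - 1)].TFAE :=
  frob_tfae_elem hT p

end Pool.Agent.Results.MP_93fb11_ag.AffineCubics
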