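import Pool.Agent.R909.SsD

/-!
# MP_93fb11_ag: semisimplicity of Frobenius and one eigenvalue on the Hilbert square

Let `X` be a smooth projective variety of dimension `n ≥ 2` over a field with `q` elements, and let
`Y = X^[2]` be the Hilbert scheme of two points of `X`: its cohomology is the part of `H(X × X)`
invariant under the exchange of the factors, plus the cohomology of `X × P^(n - 2)` twisted by one, by
algebraic correspondences.

* If the eigenvalue `q ^ n` of Frobenius on `H^(2n)(Y)` is semisimple (a Jordan block condition for one
  eigenvalue in one degree, the conjecture `S^n(Y)` of Tate), then all eigenvalues of Frobenius on all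
  `H^i(X)` are semisimple, with one possible exception: an eigenvalue `l` with `l ^ 2 = q ^ n` and of
  multiplicity exactly two on `H^n(X)`, with `n` odd.
* So if `n` is even, or no eigenvalue of this kind has multiplicity two, then the following are
  equivalent: Frobenius is semisimple on `H(X)`; Frobenius is semisimple on `H(Y)`; the eigenvalue
  `q ^ n` of Frobenius on `H^(2n)(Y)` is semisimple.

Known before: the same for `X × X` in place of `Y`. The invariant part of `H^n ⊗ H^n` consists of the
self-adjoint operators on `H^n(X)`; Jordan blocks of Frobenius have to be detected by them.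
-/

open CategoryTheory AlgebraicGeometry

universe u v

namespace Pool.Agent.Results.MP_93fb11_ag.HilbertSquares

open Pool.Agent.H914 Pool.Agent.R909 VarClass Obj WeilCohomology

variable {k : Type u} [Field k] {𝒱 : VarClass k} {ops : CycleOps 𝒱}

/-- **Semisimplicity of Frobenius and one eigenvalue on the Hilbert square.** -/
theorem result (W : WeilCohomology.{u, v} ops) [IsAlgClosed W.K] (q : ℕ) (F : Frobenius W q)
    (X Y : 𝒱.Obj) (hY : IsHilb W Y X) :
    (SemisimpleAt F Y X.dim → ∀ i l, SemisimpleOnDegree F X i l ∨ IsExceptional F X i l) ∧
    ((∀ i l, ¬ IsExceptional F X i l) →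
      List.TFAE [FrobSemisimple F X, FrobSemisimple F Y, SemisimpleAt F Y X.dim]) :=
  ⟨hilbert_all hY, hilbert_ss_tfae hY⟩

end Pool.Agent.Results.MP_93fb11_ag.HilbertSquares
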