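import Pool.Agent.R909.SsD

/-!
# MP_93fb11_ag: semisimplicity of Frobenius for all varieties from one eigenvalue

Let `X` be a smooth projective variety over a field with `q` elements, `B` a variety of positive
dimension with a zero-cycle of nonzero degree, `N = dim (X × B) ≥ 2`, and `Z = (X × B)^[2]` the Hilbert
scheme of two points of `X × B`: its cohomology is the part of `H((X × B)²)` invariant under the
exchange of the factors, plus the cohomology of `X × B × P^(N - 2)` twisted by one, by algebraic
correspondences.

* If the eigenvalue `q ^ N` of Frobenius on `H^(2N)(Z)` is semisimple (the conjecture `S^N(Z)` of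
  Tate), then Frobenius acts semisimply on `H(X)`. If Frobenius is semisimple on `H(B)` (for instance
  if `B` is a projective line) this is an equivalence.
* So Frobenius acts semisimply on the cohomology of all smooth projective varieties if and only if
  for all `V` of dimension `n ≥ 2` the eigenvalue `q ^ n` of Frobenius on the middle cohomology
  `H^(2n)(V^[2])` of the Hilbert square is semisimple.
-/

open CategoryTheory AlgebraicGeometry

universe u v

namespace Pool.Agent.Results.MP_93fb11_ag.HilbertSquaresOfProducts

open Pool.Agent.H914 Pool.Agent.R909 VarClass Obj WeilCohomology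

variable {k : Type u} [Field k] {𝒱 : VarClass k} {ops : CycleOps 𝒱}

/-- **Semisimplicity of Frobenius for all varieties from one eigenvalue on Hilbert squares.** -/
theorem result (W : WeilCohomology.{u, v} ops) [IsAlgClosed W.K] (q : ℕ) (F : Frobenius W q) :
    (∀ X B Z : 𝒱.Obj, 0 < B.dim → HasPoint B → IsHilb W Z (X.prod B) →
      (SemisimpleAt F Z (X.prod B).dim → FrobSemisimple F X) ∧
      (FrobSemisimple F B → (FrobSemisimple F X ↔ SemisimpleAt F Z (X.prod B).dim))) ∧
    ((∃ Q : 𝒱.Obj, 2 ≤ Q.dim ∧ HasPoint Q) → (∀ V : 𝒱.Obj, 2 ≤ V.dim → ∃ Z, IsHilb W Z V) →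
      ((∀ V : 𝒱.Obj, FrobSemisimple F V) ↔
        ∀ V Z : 𝒱.Obj, IsHilb W Z V → SemisimpleAt F Z V.dim)) := by
  refine ⟨fun X B Z h0 hB hZ => ⟨semisimple_of_product h0 hB hZ, fun h =>
    product_iff h0 hB h hZ⟩, fun hQ hH => ?_⟩
  obtain ⟨Q, hQ2, hQ⟩ := hQ
  exact all_semisimple_iff hQ2 hQ hH

end Pool.Agent.Results.MP_93fb11_ag.HilbertSquaresOfProducts
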