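import Pool.Agent.R937.JB.C

/-!
# MP_93fb11_ag: sublinear bounds for the Jordan blocks of Frobenius imply semisimplicity

Let `X` be a smooth projective variety of dimension `d` over a field with `q` elements, `n ≥ 1`, and
let `X ^ (2 n)` be the product of `2 n` copies of `X`.

* Frobenius acts semisimply on the whole cohomology `H(X)` if and only if its Jordan blocks on
  `H^(2nd)(X ^ (2 n))` for the one eigenvalue `q ^ (n d)` have size at most `2 n`.
* So the following are equivalent: Frobenius is semisimple on the cohomology of every smooth
  projective variety; for every variety `V` of even dimension `2 j` the Jordan blocks of Frobenius on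
  the middle cohomology `H^(2j)(V)` for the eigenvalue `q ^ j` have size at most two; there is a
  function `b` with `b(j) / j → 0` such that for every variety `V` of dimension `2 j` these Jordan
  blocks have size at most `b(j)`.

Known before: `n = 1` with bound one (no Jordan block at all on the middle cohomology of `X × X`).

The reason: a Jordan block of size at least two on `H^i(X)` and the dual one on `H^(2d-i)(X)` give a
Jordan block of size at least three for `q ^ d` on `H^(2d)(X × X)`, and the sizes minus one add up
under external products.
-/

open CategoryTheory AlgebraicGeometry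

universe u v

namespace Pool.Agent.Results.MP_93fb11_ag.JordanBlockGrowth

open Pool.Agent.H914 Pool.Agent.R937.JB VarClass Obj WeilCohomology

variable {k : Type u} [Field k] {𝒱 : VarClass k} {ops : CycleOps 𝒱}

/-- **Sublinear bounds for the Jordan blocks of Frobenius imply semisimplicity.** -/
theorem result (W : WeilCohomology.{u, v} ops) [IsAlgClosed W.K] (q : ℕ) (F : Frobenius W q) :
    (∀ (X : 𝒱.Obj) (m : ℕ),
      FrobSemisimple F X ↔ TateBlocks F (evenPow X m) ((m + 1) * X.dim) (2 * (m + 1))) ∧
    List.TFAE [∀ X : 𝒱.Obj, FrobSemisimple F X,
      ∀ (V : 𝒱.Obj) (j : ℕ), V.dim = 2 * j → TateBlocks F V j 2,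
      ∃ b : ℕ → ℕ, (∀ C : ℕ, ∃ N, ∀ n ≥ N, C * b n ≤ n) ∧
        ∀ (V : 𝒱.Obj) (j : ℕ), V.dim = 2 * j → TateBlocks F V j (b j)] :=
  ⟨fun X m => semisimple_iff_blocks X m, all_tfae F⟩

end Pool.Agent.Results.MP_93fb11_ag.JordanBlockGrowth
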